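import Pool.Agent.Work.MP_d4a230_co.HMain

namespace Pool.Agent.Results.MP_d4a230_co.AboveTuran

open Pool.Agent.Work.MP_d4a230_co

/-- For every `c > 0` the chromatic threshold at the 2-density threshold is at least
`π + (1 - π) exp (- copyRate H c)` with `π = 1 - 1 / (χ(H) - 1)`. -/
theorem result {W : Type} [Fintype W] (H : SimpleGraph W) (hH : StrictlyTwoBalanced H)
    (hm : 1 < twoDensity H) (c : ℝ) (hc : 0 < c) (p : ℕ → unitInterval)
    (hp : Filter.Tendsto (fun n : ℕ => (p n : ℝ) * (n : ℝ) ^ (1 / twoDensity H)) Filter.atTop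
      (nhds c)) :
    (1 - 1 / ((H.chromaticNumber.toNat : ℝ) - 1)) +
      1 / ((H.chromaticNumber.toNat : ℝ) - 1) * Real.exp (-copyRate H c) ≤ chromThreshold H p := by
  classical
  have B := hH.hbal hm
  rw [hH.twoDensity_eq] at hp
  have hc1 := H.colorable_chromaticNumber_of_fintype
  have h2 : 2 ≤ H.chromaticNumber.toNat := by
    obtain ⟨e, he⟩ : H.edgeFinset.Nonempty :=
      Finset.card_pos.1 (by have := B.h3; have := B.hk; omega)
    induction e using Sym2.ind with
    | _ a b =>
      exact_mod_cast (SimpleGraph.two_le_chromaticNumber_of_adj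
        (G := H) (by simpa using he)).trans hc1.chromaticNumber_le
  have h3 : ¬ H.Colorable (H.chromaticNumber.toNat - 1) := fun h => by
    have := ENat.toNat_le_of_le_natCast h.chromaticNumber_le
    omega
  have := lower_partite (B.reg hc hp) (by omega) h3
  rwa [Nat.cast_sub (by omega), Nat.cast_one] at this

end Pool.Agent.Results.MP_d4a230_co.AboveTuran
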