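import Pool.Agent.Work.MP_d4a230_co.C.Stmt

namespace Pool.Agent.Results.MP_d4a230_co.CoreExactValue

open Pool.Agent.Work.MP_d4a230_co

/-- Exact value of the chromatic threshold at the 2-density threshold, for every `H` with
`m₂(H) > 1` and a unique 2-densest subgraph `F`, when `copyRate F c * (e(F) - 1) ≤ e`. -/
theorem result {W : Type} [Fintype W] (H : SimpleGraph W) (F : H.Subgraph) (hF : UniqueDensest F)
    (hm : 1 < twoDensity H) (c : ℝ) (hc : 0 < c) (p : ℕ → unitInterval)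
    (hp : Filter.Tendsto (fun n : ℕ => (p n : ℝ) * (n : ℝ) ^ (1 / twoDensity H)) Filter.atTop
      (nhds c))
    (hsmall : ((F.edgeSet.ncard : ℝ) - 1) * copyRate F.coe c ≤ Real.exp 1) :
    ∃ x : ℝ, (∀ y : ℝ, y = Real.exp (-(copyRate F.coe c * y ^ (F.edgeSet.ncard - 1))) ↔ y = x) ∧
      chromThreshold H p = x + ((F.edgeSet.ncard : ℝ) - 1) / (F.edgeSet.ncard : ℝ) *
        copyRate F.coe c * x ^ F.edgeSet.ncard := by
  classical
  obtain ⟨C, e⟩ := U.cr_core (F := F.coe) (U.cr_verts F) (fun _ _ => Iff.rfl) hF hm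
  rw [e] at hp
  have R := C.hbal.reg hc hp
  have h3 : 3 ≤ F.coe.edgeFinset.card := C.h3.trans C.hk
  have h0 : 0 < copyRate F.coe c := by
    have h1 := one_le_aut (H := F.coe)
    have h2 : (0 : ℝ) < F.coe.edgeSet.ncard := by rw [ncard_edge]; exact_mod_cast (by omega)
    unfold aut at h1
    unfold copyRate
    positivity
  rw [U.cr_edges (F := F.coe) (U.cr_verts F) fun _ _ => Iff.rfl] at hsmall ⊢
  obtain ⟨x, hx, -⟩ := hxs_lim (by omega) h0 hsmall
  have h4 := hexact R h0 hsmall hx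
  refine ⟨x, fun y => ⟨hfix_unique h0.le hx, fun e => e ▸ hx⟩, ?_⟩
  rw [U.cr_eq C C.edeg (by omega) hc R (h4 ▸ U.cr_val h3 h0 hsmall hx), h4]

end Pool.Agent.Results.MP_d4a230_co.CoreExactValue
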