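import Pool.Agent.Work.MP_d4a230_co.C.Stmt

namespace Pool.Agent.Results.MP_d4a230_co.CoreReduction

open Pool.Agent.Work.MP_d4a230_co

/-- At the 2-density threshold the chromatic threshold of a graph `H` with a unique 2-densest
subgraph `F` lies between the minimum-degree Turán threshold of `F` and its maximum with
`1 - 1 / D`, where `H` is `D`-degenerate over `F`. -/
theorem result {W : Type} [Fintype W] (H : SimpleGraph W) (F : H.Subgraph) (hF : UniqueDensest F)
    (hm : 1 < twoDensity H) (D : ℕ) (hD1 : 1 ≤ D) (hD : DegenerateOver F D) (c : ℝ) (hc : 0 < c)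
    (p : ℕ → unitInterval)
    (hp : Filter.Tendsto (fun n : ℕ => (p n : ℝ) * (n : ℝ) ^ (1 / twoDensity H)) Filter.atTop
      (nhds c)) :
    chromThreshold H p ∈
      Set.Icc (turanThreshold F.coe p) (max (turanThreshold F.coe p) (1 - 1 / (D : ℝ))) := by
  classical
  obtain ⟨C, e⟩ := U.cr_core (F := F.coe) (U.cr_verts F) (fun _ _ => Iff.rfl) hF hm
  rw [e] at hp
  exact U.cr_main C (U.cr_edeg (U.cr_verts F) hD) hD1 hc (C.hbal.reg hc hp)

end Pool.Agent.Results.MP_d4a230_co.CoreReduction
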