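import Pool.Agent.Work.MP_d4a230_co.L.Stmt
import Pool.Agent.Work.MP_d4a230_co.L.Tur

namespace Pool.Agent.Results.MP_d4a230_co.ExactLargeC

open Pool.Agent.Work.MP_d4a230_co

/-- Exact value of the chromatic threshold at the 2-density threshold for all large `c`, for `H`
with `m₂(H) > 1` and a unique 2-densest subgraph `F`, when homomorphisms of `F` extend to `H` in all
graphs of relative minimum degree above `1 - 1 / r`, or `H` is `r`-degenerate over `F`, or
`2 m₂(H) ≤ r + 1`, or `F` is complete and `H` has a colouring with `r + 1` colours. It is the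
maximum of `bethe` if `F` has an edge whose deletion lowers its chromatic number from `r + 1` to
`r`, and `1 - 1 / r` if `F` has a colouring with `r ≥ 3` colours and `H` has none. -/
theorem result {W : Type} [Fintype W] (H : SimpleGraph W) (F : H.Subgraph) (hF : UniqueDensest F)
    (hm : 1 < twoDensity H) (r : ℕ)
    (hE : (∀ d : ℝ, 1 - 1 / (r : ℝ) < d → ExtendsAt F d) ∨ DegenerateOver F r ∨
      2 * twoDensity H ≤ r + 1 ∨ (F.coe = ⊤ ∧ H.Colorable (r + 1))) :
    ((¬ F.coe.Colorable r ∧ ∃ e ∈ F.coe.edgeSet, (F.coe.deleteEdges {e}).Colorable r) →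
      ∃ c₀ : ℝ, ∀ c : ℝ, c₀ ≤ c → ∀ p : ℕ → unitInterval,
        Filter.Tendsto (fun n : ℕ => (p n : ℝ) * (n : ℝ) ^ (1 / twoDensity H)) Filter.atTop
          (nhds c) →
        IsGreatest
          {v : ℝ | ∃ x ∈ Set.Icc (0 : ℝ) 1, ∃ y ∈ Set.Icc (0 : ℝ) 1, v = bethe F.coe r c x y}
          (chromThreshold H p)) ∧
    ((3 ≤ r ∧ F.coe.Colorable r ∧ ¬ H.Colorable r) →
      ∃ c₀ : ℝ, ∀ c : ℝ, c₀ ≤ c → ∀ p : ℕ → unitInterval,
        Filter.Tendsto (fun n : ℕ => (p n : ℝ) * (n : ℝ) ^ (1 / twoDensity H)) Filter.atTop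
          (nhds c) →
        chromThreshold H p = 1 - 1 / (r : ℝ)) := by
  classical
  obtain ⟨C, e⟩ := U.cr_core (F := F.coe) (U.cr_verts F) (fun _ _ => Iff.rfl) hF hm
  have B := C.hbal
  have hk : F.coe.edgeFinset.card - 1 ≠ 0 := by have := B.h3; have := B.hk; omega
  refine ⟨fun ⟨hr, he⟩ => ?_, fun ⟨hr, h2, h3⟩ => ?_⟩
  swap
  · obtain ⟨Λ0, h⟩ := lo_tur2 B (by omega) h2
    refine ⟨max 1 Λ0, fun c hc p hp => ?_⟩
    rw [e] at hp hE
    have h1 : 1 ≤ c := le_of_max_le_left hc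
    have c0 : 0 < c := by linarith
    have R := B.reg c0 hp
    refine (U.lo_eq R ?_ hr h3 le_rfl).trans
      (max_eq_right (h p _ _ R ((le_of_max_le_right hc).trans (le_self_pow₀ h1 hk))))
    rcases hE with k | k | k | ⟨k, -⟩
    · exact U.e_main C k c0 R
    · exact U.cr_main C (U.cr_edeg (U.cr_verts F) k) (by omega) c0 R
    · exact U.cr_main C (U.e_deg C k) (by omega) c0 R
    · exact U.cr_main C (U.lo_top C (U.lo_le k h2)) (by omega) c0 R
  have r0 : 0 < r := by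
    obtain ⟨_, -, ⟨χ⟩⟩ := he
    obtain ⟨a⟩ := Fintype.card_pos_iff.1 (lt_of_lt_of_le (by norm_num) C.h3)
    exact (χ a).pos
  obtain ⟨Λ0, h⟩ := large_exact B (⟨hr, he⟩ : ECrit F.coe r)
  refine ⟨max 1 Λ0, fun c hc p hp => ?_⟩
  rw [e] at hp hE
  have h1 : 1 ≤ c := le_of_max_le_left hc
  have c0 : 0 < c := by linarith
  have R := B.reg c0 hp
  have ha : copyRate F.coe c / F.coe.edgeFinset.card =
      2 * c ^ (F.coe.edgeFinset.card - 1) / aut F.coe := by
    have : (F.coe.edgeFinset.card : ℝ) ≠ 0 := by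
      exact_mod_cast (by omega : F.coe.edgeFinset.card ≠ 0)
    unfold copyRate aut
    rw [ncard_edge]
    field_simp
  obtain ⟨x, y, hopt⟩ := exists_opt F.coe r (2 * c ^ (F.coe.edgeFinset.card - 1) / aut F.coe)
  have h2 : 1 - 1 / (r : ℝ) ≤ chromThreshold F.coe p :=
    (le_add_of_nonneg_right (by positivity)).trans (lower_partite R r0 hr)
  have h3 : chromThreshold H p = chromThreshold F.coe p := by
    rcases hE with k | k | k | ⟨k1, k2⟩
    · exact U.e_eq C k c0 R h2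
    · exact U.cr_eq C (U.cr_edeg (U.cr_verts F) k) r0 c0 R h2
    · exact U.cr_eq C (U.e_deg C k) r0 c0 R h2
    · exact U.e_eq C (fun d _ => U.e_ret (U.e_clq C hr k2 fun a b k => k1.ge k) d) c0 R h2
  rw [h3, h p _ _ R ((le_of_max_le_right hc).trans (le_self_pow₀ h1 hk)) x y hopt]
  refine ⟨⟨x, hopt.1, y, hopt.2.1, by rw [bethe_eq, ha]⟩, ?_⟩
  rintro v ⟨x', hx', y', hy', rfl⟩
  rw [bethe_eq, ha]
  exact hopt.2.2 x' y' hx' hy'

end Pool.Agent.Results.MP_d4a230_co.ExactLargeC
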