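import Pool.Agent.Work.MP_d4a230_co.L.Stmt

namespace Pool.Agent.Results.MP_d4a230_co.ExactReduction

open Pool.Agent.Work.MP_d4a230_co

/-- First part: if `H` has no colouring with `r ≥ 3` colours and `log n / n ≪ p ≪ 1`, the chromatic
threshold is at least `1 - 1 / r`. Second part: at the 2-density threshold the chromatic threshold
of a graph `H` with a unique 2-densest subgraph `F` lies between the minimum-degree Turán threshold
`t` of `F` and `max t d₀`, when homomorphisms of `F` extend to `H` in all graphs of relative minimum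
degree above `d₀`, or `F` is a retract of `H`, or `d₀ ≥ 1 - 1 / D` and `H` is `D`-degenerate over
`F` or `2 m₂(H) ≤ D + 1`; it equals `max t (1 - 1 / r)` if moreover `d₀ ≤ 1 - 1 / r` and `H` has no
colouring with `r ≥ 3` colours; and the case of a complete `F` is settled for every `H`. -/
theorem result {W : Type} [Fintype W] (H : SimpleGraph W) :
    (∀ r : ℕ, 3 ≤ r → ¬ H.Colorable r → ∀ p : ℕ → unitInterval,
      Filter.Tendsto (fun n : ℕ => (p n : ℝ)) Filter.atTop (nhds 0) →
      Filter.Tendsto (fun n : ℕ => (p n : ℝ) * n / Real.log n) Filter.atTop Filter.atTop →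
      1 - 1 / (r : ℝ) ≤ chromThreshold H p) ∧
    ∀ F : H.Subgraph, UniqueDensest F → 1 < twoDensity H → ∀ c : ℝ, 0 < c →
      ∀ p : ℕ → unitInterval,
      Filter.Tendsto (fun n : ℕ => (p n : ℝ) * (n : ℝ) ^ (1 / twoDensity H)) Filter.atTop
        (nhds c) →
      (∀ d₀ : ℝ,
        ((∀ d : ℝ, d₀ < d → ExtendsAt F d) ∨ (∃ χ : H →g F.coe, ∀ a : F.verts, χ a = a) ∨
          ∃ D : ℕ, 1 ≤ D ∧ 1 - 1 / (D : ℝ) ≤ d₀ ∧
            (DegenerateOver F D ∨ 2 * twoDensity H ≤ D + 1)) →
        chromThreshold H p ∈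
          Set.Icc (turanThreshold F.coe p) (max (turanThreshold F.coe p) d₀) ∧
        ∀ r : ℕ, 3 ≤ r → ¬ H.Colorable r → d₀ ≤ 1 - 1 / (r : ℝ) →
          chromThreshold H p = max (turanThreshold F.coe p) (1 - 1 / (r : ℝ))) ∧
      (F.coe = ⊤ →
        (H.Colorable F.verts.ncard → chromThreshold H p = turanThreshold F.coe p) ∧
        (¬ H.Colorable F.verts.ncard → chromThreshold H p =
          max (turanThreshold F.coe p) (1 - 1 / (F.verts.ncard : ℝ)))) := by
  classical
  refine ⟨fun r hr hH p l0 l1 => U.lo_log l0 l1 hr hH, fun F hF hm c hc p hp => ?_⟩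
  obtain ⟨C, e⟩ := U.cr_core (F := F.coe) (U.cr_verts F) (fun _ _ => Iff.rfl) hF hm
  rw [e] at hp ⊢
  have R := C.hbal.reg hc hp
  have v : F.verts.ncard = Fintype.card F.verts := Nat.card_eq_fintype_card
  refine ⟨fun d₀ hE => ?_, fun h => ⟨fun k => ?_, fun k => ?_⟩⟩
  · have h1 : chromThreshold H p ∈
        Set.Icc (turanThreshold F.coe p) (max (turanThreshold F.coe p) d₀) := by
      rcases hE with h | h | ⟨D, h1, h2, h⟩
      · exact U.e_main C h hc R
      · exact U.e_main C (fun d _ => U.e_ret h d) hc R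
      · exact Set.Icc_subset_Icc_right (max_le_max le_rfl h2)
          (U.cr_main C (h.elim (U.cr_edeg (U.cr_verts F)) (U.e_deg C)) h1 hc R)
    exact ⟨h1, fun r hr hH hz => U.lo_eq R h1 hr hH hz⟩
  · exact (U.e_eq C (fun d _ => U.e_ret (U.lo_clq C h (v ▸ k)) d) hc R le_rfl).trans
      (chrom_eq_turan R)
  · exact U.lo_eq R (U.cr_main C (U.lo_top C v.ge) (le_trans (by norm_num) hF.1) hc R) hF.1 k le_rfl

end Pool.Agent.Results.MP_d4a230_co.ExactReduction
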