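import Pool.Agent.Work.MP_d4a230_co.HMain

namespace Pool.Agent.Results.MP_d4a230_co.ExactValue

open Pool.Agent.Work.MP_d4a230_co

/-- Exact value of the chromatic threshold at the 2-density threshold, for strictly 2-balanced `H`
with `m₂(H) > 1` and `(e(H) - 1) * copyRate H c ≤ e`. -/
theorem result {W : Type} [Fintype W] (H : SimpleGraph W) (hH : StrictlyTwoBalanced H)
    (hm : 1 < twoDensity H) (c : ℝ) (hc : 0 < c) (p : ℕ → unitInterval)
    (hp : Filter.Tendsto (fun n : ℕ => (p n : ℝ) * (n : ℝ) ^ (1 / twoDensity H)) Filter.atTop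
      (nhds c))
    (hsmall : ((H.edgeSet.ncard : ℝ) - 1) * copyRate H c ≤ Real.exp 1) :
    ∃ x : ℝ, (∀ y : ℝ, y = Real.exp (-(copyRate H c * y ^ (H.edgeSet.ncard - 1))) ↔ y = x) ∧
      chromThreshold H p = x + ((H.edgeSet.ncard : ℝ) - 1) / (H.edgeSet.ncard : ℝ) *
        copyRate H c * x ^ H.edgeSet.ncard := by
  classical
  have B := hH.hbal hm
  rw [hH.twoDensity_eq] at hp
  have R := B.reg hc hp
  have h2 : 2 ≤ H.edgeFinset.card := by have := B.h3; have := B.hk; omega
  have h0 : 0 < copyRate H c := by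
    have : Finite (H ≃g H) := Finite.of_injective _ RelIso.toEquiv_injective
    have : Nonempty (H ≃g H) := ⟨SimpleGraph.Iso.refl⟩
    have h1 : (0 : ℝ) < Nat.card (H ≃g H) := by exact_mod_cast Nat.card_pos
    have h3 : (0 : ℝ) < H.edgeSet.ncard := by rw [ncard_edge]; exact_mod_cast (by omega)
    unfold copyRate
    positivity
  rw [ncard_edge] at hsmall ⊢
  obtain ⟨x, hx, -⟩ := hxs_lim h2 h0 hsmall
  exact ⟨x, fun y => ⟨hfix_unique h0.le hx, fun e => e ▸ hx⟩, hexact R h0 hsmall hx⟩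

end Pool.Agent.Results.MP_d4a230_co.ExactValue
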