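import Pool.Agent.Work.MP_d4a230_co.E.Stmt

namespace Pool.Agent.Results.MP_d4a230_co.ExtReduction

open Pool.Agent.Work.MP_d4a230_co

/-- At the 2-density threshold the chromatic threshold of a graph `H` with a unique 2-densest
subgraph `F` lies between the minimum-degree Turán threshold of `F` and its maximum with `d₀`, when
homomorphisms of `F` extend to `H` in all graphs of relative minimum degree above `d₀`, or `F` is a
retract of `H`, or `d₀ ≥ 1 - 1 / D` and `H` is `D`-degenerate over `F` or `2 m₂(H) ≤ D + 1`. -/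
theorem result {W : Type} [Fintype W] (H : SimpleGraph W) (F : H.Subgraph) (hF : UniqueDensest F)
    (hm : 1 < twoDensity H) (d₀ : ℝ)
    (hE : (∀ d : ℝ, d₀ < d → ExtendsAt F d) ∨ (∃ χ : H →g F.coe, ∀ a : F.verts, χ a = a) ∨
      ∃ D : ℕ, 1 ≤ D ∧ 1 - 1 / (D : ℝ) ≤ d₀ ∧ (DegenerateOver F D ∨ 2 * twoDensity H ≤ D + 1))
    (c : ℝ) (hc : 0 < c) (p : ℕ → unitInterval)
    (hp : Filter.Tendsto (fun n : ℕ => (p n : ℝ) * (n : ℝ) ^ (1 / twoDensity H)) Filter.atTop
      (nhds c)) :
    chromThreshold H p ∈ Set.Icc (turanThreshold F.coe p) (max (turanThreshold F.coe p) d₀) := by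
  classical
  obtain ⟨C, e⟩ := U.cr_core (F := F.coe) (U.cr_verts F) (fun _ _ => Iff.rfl) hF hm
  rw [e] at hp hE
  have R := C.hbal.reg hc hp
  rcases hE with h | h | ⟨D, h1, h2, h⟩
  · exact U.e_main C h hc R
  · exact U.e_main C (fun d _ => U.e_ret h d) hc R
  · exact Set.Icc_subset_Icc_right (max_le_max le_rfl h2)
      (U.cr_main C (h.elim (U.cr_edeg (U.cr_verts F)) (U.e_deg C)) h1 hc R)

end Pool.Agent.Results.MP_d4a230_co.ExtReduction
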