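import Pool.Agent.Work.MP_d4a230_co.KMain

namespace Pool.Agent.Results.MP_d4a230_co.LargeC

open Pool.Agent.Work.MP_d4a230_co

/-- Exact value of the chromatic threshold at the 2-density threshold for all large `c`, for
strictly 2-balanced `H` with `m₂(H) > 1` having an edge whose deletion lowers the chromatic number
from `r + 1` to `r`. -/
theorem result {W : Type} [Fintype W] (H : SimpleGraph W) (hH : StrictlyTwoBalanced H)
    (hm : 1 < twoDensity H) (r : ℕ) (hr : ¬ H.Colorable r)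
    (he : ∃ e ∈ H.edgeSet, (H.deleteEdges {e}).Colorable r) :
    ∃ c₀ : ℝ, ∀ c : ℝ, c₀ ≤ c → ∀ p : ℕ → unitInterval,
      Filter.Tendsto (fun n : ℕ => (p n : ℝ) * (n : ℝ) ^ (1 / twoDensity H)) Filter.atTop
        (nhds c) →
      IsGreatest {v : ℝ | ∃ x ∈ Set.Icc (0 : ℝ) 1, ∃ y ∈ Set.Icc (0 : ℝ) 1, v = bethe H r c x y}
        (chromThreshold H p) := by
  classical
  have B := hH.hbal hm
  obtain ⟨Λ0, h⟩ := large_exact B (⟨hr, he⟩ : ECrit H r)
  refine ⟨max 1 Λ0, fun c hc p hp => ?_⟩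
  rw [hH.twoDensity_eq] at hp
  have h1 : 1 ≤ c := le_of_max_le_left hc
  have hk : H.edgeFinset.card - 1 ≠ 0 := by have := B.h3; have := B.hk; omega
  have ha : copyRate H c / H.edgeFinset.card = 2 * c ^ (H.edgeFinset.card - 1) / aut H := by
    have : (H.edgeFinset.card : ℝ) ≠ 0 := by exact_mod_cast (by omega : H.edgeFinset.card ≠ 0)
    unfold copyRate aut
    rw [ncard_edge]
    field_simp
  obtain ⟨x, y, hopt⟩ := exists_opt H r (2 * c ^ (H.edgeFinset.card - 1) / aut H)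
  rw [h p _ _ (B.reg (by linarith) hp) ((le_of_max_le_right hc).trans (le_self_pow₀ h1 hk)) x y hopt]
  refine ⟨⟨x, hopt.1, y, hopt.2.1, by rw [bethe_eq, ha]⟩, ?_⟩
  rintro v ⟨x', hx', y', hy', rfl⟩
  rw [bethe_eq, ha]
  exact hopt.2.2 x' y' hx' hy'

end Pool.Agent.Results.MP_d4a230_co.LargeC
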