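import Pool.Agent.Work.MP_d4a230_co.HMain

namespace Pool.Agent.Results.MP_d4a230_co.Monotone

open Pool.Agent.Work.MP_d4a230_co

/-- The chromatic threshold at the 2-density threshold is non-increasing in the constant `c`, for
strictly 2-balanced `H` with `m₂(H) > 1`. -/
theorem result {W : Type} [Fintype W] (H : SimpleGraph W) (hH : StrictlyTwoBalanced H)
    (hm : 1 < twoDensity H) (c c' : ℝ) (hc' : 0 < c') (hc : c' < c) (p p' : ℕ → unitInterval)
    (hp : Filter.Tendsto (fun n : ℕ => (p n : ℝ) * (n : ℝ) ^ (1 / twoDensity H)) Filter.atTop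
      (nhds c))
    (hp' : Filter.Tendsto (fun n : ℕ => (p' n : ℝ) * (n : ℝ) ^ (1 / twoDensity H)) Filter.atTop
      (nhds c')) :
    chromThreshold H p ≤ chromThreshold H p' := by
  classical
  have B := hH.hbal hm
  have hle : ∀ᶠ n : ℕ in Filter.atTop, (p' n : ℝ) ≤ p n := by
    filter_upwards [hp'.eventually_lt hp hc, Filter.eventually_gt_atTop 0] with n h hn
    exact (lt_of_mul_lt_mul_right h (Real.rpow_nonneg (Nat.cast_nonneg n) _)).le
  rw [hH.twoDensity_eq] at hp hp'
  rw [chrom_eq_turan (B.reg (hc'.trans hc) hp), chrom_eq_turan (B.reg hc' hp')]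
  exact turan_mono (B.reg hc' hp') hle

end Pool.Agent.Results.MP_d4a230_co.Monotone
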