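import Pool.Agent.Work.MP_d4a230_co.S.Main

namespace Pool.Agent.Results.MP_d4a230_co.SidorenkoUniversality

open Pool.Agent.Work.MP_d4a230_co

/-- Let `H` be strictly 2-balanced with `m₂(H) > 1` and `k` edges. Suppose that its homomorphism
density is convex (in particular complete bipartite graphs and even cycles), or that it has
Sidorenko's property (in particular the graphs of `PrismClass`) and a bipartition with degrees at
most `s` on one side, at most `t` on the other and `k ≤ ⌊k / s⌋ ⌊k / t⌋`. Then for every `c > 0` the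
chromatic threshold at `p ~ c n ^ (-1 / m₂(H))` is the limiting independence ratio of the binomial
random `k`-uniform hypergraph with mean degree `copyRate H c`. -/
theorem result {W : Type} [Fintype W] (H : SimpleGraph W) (hH : StrictlyTwoBalanced H)
    (hm : 1 < twoDensity H)
    (hC : ConvexDensity H ∨
      (∃ s t : ℕ, Nonempty (H ≃g completeBipartiteGraph (Fin s) (Fin t))) ∨
      (∃ l : ℕ, Even l ∧ 4 ≤ l ∧ Nonempty (H ≃g SimpleGraph.cycleGraph l)) ∨
      ((Sidorenko H ∨ PrismClass H) ∧
        ∃ (A : Set W) (s t : ℕ), (∀ u v, H.Adj u v → (u ∈ A ↔ v ∉ A)) ∧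
          (∀ v ∉ A, (H.neighborSet v).ncard ≤ s) ∧ (∀ v ∈ A, (H.neighborSet v).ncard ≤ t) ∧
          H.edgeSet.ncard ≤ H.edgeSet.ncard / s * (H.edgeSet.ncard / t)))
    (c : ℝ) (hc : 0 < c) (p : ℕ → unitInterval)
    (hp : Filter.Tendsto (fun n : ℕ => (p n : ℝ) * (n : ℝ) ^ (1 / twoDensity H)) Filter.atTop
      (nhds c)) :
    Filter.Tendsto (fun N : ℕ => meanIndep H.edgeSet.ncard N
      (copyRate H c / ((N - 1).choose (H.edgeSet.ncard - 1) : ℝ)) / N) Filter.atTop
      (nhds (chromThreshold H p)) := by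
  refine U.sandwich H hH hm ?_ c hc p hp
  rcases hC with h | ⟨s, t, ⟨e⟩⟩ | ⟨l, h1, h2, ⟨e⟩⟩ | h
  · exact Or.inl h
  · exact Or.inl ((convexDensity_Kst' s t).iso e)
  · exact Or.inl ((convexDensity_cycle l h1 h2).iso e)
  · exact Or.inr h

end Pool.Agent.Results.MP_d4a230_co.SidorenkoUniversality
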