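import Pool.Agent.Work.MP_d4a230_co.HMain

namespace Pool.Agent.Results.MP_d4a230_co.TuranReduction

open Pool.Agent.Work.MP_d4a230_co

/-- At the 2-density threshold the chromatic threshold equals the minimum-degree Turán threshold,
for strictly 2-balanced `H` with `m₂(H) > 1` and every `c > 0`. -/
theorem result {W : Type} [Fintype W] (H : SimpleGraph W) (hH : StrictlyTwoBalanced H)
    (hm : 1 < twoDensity H) (c : ℝ) (hc : 0 < c) (p : ℕ → unitInterval)
    (hp : Filter.Tendsto (fun n : ℕ => (p n : ℝ) * (n : ℝ) ^ (1 / twoDensity H)) Filter.atTop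
      (nhds c)) :
    chromThreshold H p = turanThreshold H p := by
  classical
  have B := hH.hbal hm
  rw [hH.twoDensity_eq] at hp
  exact chrom_eq_turan (B.reg hc hp)

end Pool.Agent.Results.MP_d4a230_co.TuranReduction
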