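import Pool.Agent.Work.MP_d4a230_co.U.Final
import Pool.Agent.Work.MP_d4a230_co.U.Iso

namespace Pool.Agent.Results.MP_d4a230_co.Universality

open Pool.Agent.Work.MP_d4a230_co

/-- For strictly 2-balanced `H` with `m₂(H) > 1` whose homomorphism density is convex (in
particular complete bipartite graphs and even cycles) and every `c > 0`, the chromatic threshold at
`p ~ c n ^ (-1 / m₂(H))` is the limiting independence ratio of the binomial random
`e(H)`-uniform hypergraph with mean degree `copyRate H c`. -/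
theorem result {W : Type} [Fintype W] (H : SimpleGraph W) (hH : StrictlyTwoBalanced H)
    (hm : 1 < twoDensity H)
    (hC : ConvexDensity H ∨
      (∃ s t : ℕ, Nonempty (H ≃g completeBipartiteGraph (Fin s) (Fin t))) ∨
      ∃ l : ℕ, Even l ∧ 4 ≤ l ∧ Nonempty (H ≃g SimpleGraph.cycleGraph l))
    (c : ℝ) (hc : 0 < c) (p : ℕ → unitInterval)
    (hp : Filter.Tendsto (fun n : ℕ => (p n : ℝ) * (n : ℝ) ^ (1 / twoDensity H)) Filter.atTop
      (nhds c)) :
    Filter.Tendsto (fun N : ℕ => meanIndep H.edgeSet.ncard N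
      (copyRate H c / ((N - 1).choose (H.edgeSet.ncard - 1) : ℝ)) / N) Filter.atTop
      (nhds (chromThreshold H p)) := by
  refine U.universality H hH hm ?_ c hc p hp
  rcases hC with h | ⟨s, t, ⟨e⟩⟩ | ⟨l, h1, h2, ⟨e⟩⟩
  · exact h
  · exact (convexDensity_Kst' s t).iso e
  · exact (convexDensity_cycle l h1 h2).iso e

end Pool.Agent.Results.MP_d4a230_co.Universality
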